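import Mathlib
import Pool.Agent.Lib.MP_81f2fa_al.Support
import Pool.Agent.Lib.MP_81f2fa_al.Typical

set_option autoImplicit false

open MvPolynomial

namespace Pool.Agent.Results.MP_81f2fa_al.CubicSupport

open Pool.Agent.Lib.MP_81f2fa_al

/-- The trace polynomial `f_w` of `w` in the free group on two generators: the unique polynomial
with `tr w(A,B) = f_w(tr A, tr B, tr AB)` for all `A, B` in `SL(2,ℂ)` (Fricke, Vogt). Existence and
uniqueness are proved in `existsUnique_tracePoly`. -/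
noncomputable def tracePoly (w : FreeGroup (Fin 2)) : MvPolynomial (Fin 3) ℤ :=
  Classical.choose (existsUnique_tracePoly w)

theorem tracePoly_spec (w : FreeGroup (Fin 2)) : IsTracePoly w (tracePoly w) :=
  (Classical.choose_spec (existsUnique_tracePoly w)).1

/-- The support size `N(w)`: the number of monomials of `f_w` with nonzero coefficient. -/
noncomputable def supportSize (w : FreeGroup (Fin 2)) : ℕ := (tracePoly w).support.card

/-- `M(n)`: the maximum of `N(w)` over the cyclically reduced words `w` of length `n` in the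
letters `a, a⁻¹, b, b⁻¹`, coded as `(0,true), (0,false), (1,true), (1,false)`. -/
noncomputable def maxSupport (n : ℕ) : ℕ :=
  sSup {N : ℕ | ∃ w : List (Fin 2 × Bool), FreeGroup.IsCyclicallyReduced w ∧ w.length = n ∧
    supportSize (FreeGroup.mk w) = N}

/-- The freely reduced words of length `n`. -/
def reducedWords (n : ℕ) : Set (List (Fin 2 × Bool)) := {w | FreeGroup.IsReduced w ∧ w.length = n}

/-- The probability that a uniformly random freely reduced word of length `n` lies in `E`. -/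
noncomputable def prob (n : ℕ) (E : Set (List (Fin 2 × Bool))) : ℝ :=
  ((reducedWords n ∩ E).ncard : ℝ) / ((reducedWords n).ncard : ℝ)

theorem supportSize_le (w : List (Fin 2 × Bool)) :
    supportSize (FreeGroup.mk w) ≤ (w.length + 2) ^ 3 := by
  have h : tracePoly (FreeGroup.mk w) = trQ (coords w) :=
    (tracePoly_spec _).unique (isTracePoly_trQ w)
  rw [supportSize, h]
  exact card_support_le _ _ (fun i => degreeOf_trQ_le w i)

theorem bdd (n : ℕ) : (n + 2) ^ 3 ∈ upperBounds {N : ℕ | ∃ w : List (Fin 2 × Bool),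
    FreeGroup.IsCyclicallyReduced w ∧ w.length = n ∧ supportSize (FreeGroup.mk w) = N} := by
  rintro N ⟨w, -, hw, rfl⟩
  rw [← hw]
  exact supportSize_le w

theorem maxSupport_le (n : ℕ) : maxSupport n ≤ (n + 2) ^ 3 := csSup_le' (bdd n)

theorem le_maxSupport (i j k : ℕ) :
    ((i + 1) / 2 + 1) * ((j + 1) / 2 + 1) * (k / 2 + 1) ≤ maxSupport (i + 2 + (j + 2 + 2 * (k + 1))) := by
  refine le_csSup_of_le ⟨_, bdd _⟩ ⟨wd i j k, wd_cyc i j k, wd_length i j k, rfl⟩ ?_
  have h : tracePoly (FreeGroup.mk (wd i j k)) = fP i j k :=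
    (tracePoly_spec _).unique (isTracePoly_fP i j k)
  rw [supportSize, h]
  exact card_support_fP i j k

theorem lower (n : ℕ) (hn : 12 ≤ n) : n ^ 3 ≤ 3456 * maxSupport n := by
  obtain ⟨q, r, hr, hq⟩ : ∃ q r, r < 6 ∧ n = 6 * q + r := ⟨n / 6, n % 6, by omega, by omega⟩
  have hq2 : 2 ≤ q := by omega
  have h := le_maxSupport (2 * q + r - 2) (2 * q - 2) (q - 1)
  have e : 2 * q + r - 2 + 2 + (2 * q - 2 + 2 + 2 * (q - 1 + 1)) = n := by omega
  rw [e] at h
  have h1 : q ≤ (2 * q + r - 2 + 1) / 2 + 1 := by omega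
  have h2 : q ≤ (2 * q - 2 + 1) / 2 + 1 := by omega
  have h3 : q ≤ 2 * ((q - 1) / 2 + 1) := by omega
  have h4 : q * q * q ≤ 2 * maxSupport n := by
    calc q * q * q ≤ ((2 * q + r - 2 + 1) / 2 + 1) * ((2 * q - 2 + 1) / 2 + 1) *
          (2 * ((q - 1) / 2 + 1)) := Nat.mul_le_mul (Nat.mul_le_mul h1 h2) h3
      _ = 2 * (((2 * q + r - 2 + 1) / 2 + 1) * ((2 * q - 2 + 1) / 2 + 1) *
          ((q - 1) / 2 + 1)) := by ring
      _ ≤ 2 * maxSupport n := Nat.mul_le_mul le_rfl h
  have h5 : n ≤ 12 * q := by omega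
  calc n ^ 3 ≤ (12 * q) ^ 3 := Nat.pow_le_pow_left h5 3
    _ = 1728 * (q * q * q) := by ring
    _ ≤ 1728 * (2 * maxSupport n) := Nat.mul_le_mul le_rfl h4
    _ = 3456 * maxSupport n := by ring

/-- `M(n) = Θ(n³)`. -/
theorem maxSupport_theta :
    (fun n : ℕ => (maxSupport n : ℝ)) =Θ[Filter.atTop] (fun n : ℕ => (n : ℝ) ^ 3) := by
  constructor
  · refine Asymptotics.IsBigO.of_bound 27 ?_
    filter_upwards [Filter.eventually_ge_atTop 1] with n hn
    have h : ((maxSupport n : ℕ) : ℝ) ≤ ((n : ℝ) + 2) ^ 3 := by exact_mod_cast maxSupport_le n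
    have hn' : (1 : ℝ) ≤ n := by exact_mod_cast hn
    rw [Real.norm_of_nonneg (by positivity), Real.norm_of_nonneg (by positivity)]
    refine h.trans ?_
    calc ((n : ℝ) + 2) ^ 3 ≤ (3 * n) ^ 3 := by gcongr; linarith
      _ = 27 * (n : ℝ) ^ 3 := by ring
  · refine Asymptotics.IsBigO.of_bound 3456 ?_
    filter_upwards [Filter.eventually_ge_atTop 12] with n hn
    rw [Real.norm_of_nonneg (by positivity), Real.norm_of_nonneg (by positivity)]
    exact_mod_cast lower n hn

theorem reducedWords_eq (n : ℕ) (hn : 1 ≤ n) :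
    reducedWords n = ((redF (n - 1) : Finset (List (Fin 2 × Bool))) : Set _) := by
  ext w
  rw [Finset.mem_coe, mem_redF, Nat.sub_add_cancel hn]
  exact and_comm

theorem prob_le_one (n : ℕ) (E : Set (List (Fin 2 × Bool))) : prob n E ≤ 1 := by
  have hfin : (reducedWords n).Finite :=
    (List.finite_length_eq (Fin 2 × Bool) n).subset fun w hw => hw.2
  unfold prob
  apply div_le_one_of_le₀
  · exact_mod_cast Set.ncard_le_ncard Set.inter_subset_left hfin
  · positivity

theorem prob_nonneg (n : ℕ) (E : Set (List (Fin 2 × Bool))) : 0 ≤ prob n E := by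
  unfold prob
  positivity

open Classical in
theorem prob_lower (B : ℕ) (hB : B = 708588) (n : ℕ) :
    1 - 3 * (1 - 1 / (4 * (B : ℝ))) ^ n ≤
      prob n {w | 1 / (3 * (B : ℝ) ^ 3) * (n : ℝ) ^ 3 ≤ supportSize (FreeGroup.mk w)} := by
  set E : Set (List (Fin 2 × Bool)) :=
    {w | 1 / (3 * (B : ℝ) ^ 3) * (n : ℝ) ^ 3 ≤ supportSize (FreeGroup.mk w)} with hE
  rcases Nat.eq_zero_or_pos n with rfl | hn
  · have := prob_nonneg 0 E
    rw [pow_zero]
    linarith
  · have hB0 : (0 : ℝ) < B := by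
      rw [hB]
      norm_num
    have h := typical B hB n hn
    set S := redF (n - 1) with hS
    have e1 : (reducedWords n).ncard = S.card := by
      rw [reducedWords_eq n hn, Set.ncard_coe_finset]
    have e2 : (reducedWords n ∩ E).ncard = (S.filter (fun w => w ∈ E)).card := by
      rw [reducedWords_eq n hn, ← Set.ncard_coe_finset]
      congr 1
      ext w
      simp [hS]
    have e3 : ((S.filter (fun w => w ∉ E)).card : ℝ) ≤
        3 * (1 - 1 / (4 * (B : ℝ))) ^ n * S.card := by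
      refine le_trans ?_ h
      have hsub : S.filter (fun w => w ∉ E) ⊆
          S.filter (fun w => ¬ ∃ f : MvPolynomial (Fin 3) ℤ,
            IsTracePoly (FreeGroup.mk w) f ∧ n ^ 3 ≤ 3 * B ^ 3 * f.support.card) := by
        intro w hw
        rw [Finset.mem_filter] at hw ⊢
        refine ⟨hw.1, ?_⟩
        rintro ⟨f, hf, hcard⟩
        apply hw.2
        have hfe : tracePoly (FreeGroup.mk w) = f := (tracePoly_spec _).unique hf
        show 1 / (3 * (B : ℝ) ^ 3) * (n : ℝ) ^ 3 ≤ ((tracePoly (FreeGroup.mk w)).support.card : ℝ)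
        rw [hfe]
        have h1 : (n : ℝ) ^ 3 ≤ 3 * (B : ℝ) ^ 3 * f.support.card := by exact_mod_cast hcard
        rw [one_div, inv_mul_le_iff₀ (by positivity)]
        exact h1
      exact_mod_cast Finset.card_le_card hsub
    have e4 : ((S.filter (fun w => w ∈ E)).card : ℝ) + (S.filter (fun w => w ∉ E)).card =
        S.card := by
      exact_mod_cast Finset.card_filter_add_card_filter_not (s := S) (fun w => w ∈ E)
    have hpos : (0 : ℝ) < S.card := by
      rw [hS, card_redF]
      positivity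
    unfold prob
    rw [e1, e2, le_div_iff₀ hpos]
    linarith

/-- The growth order of `M(n)` is cubic, and the support size of a random freely reduced word of
length `n` is typically of order `n³`. -/
theorem result :
    (fun n : ℕ => (maxSupport n : ℝ)) =Θ[Filter.atTop] (fun n : ℕ => (n : ℝ) ^ 3) ∧
    (∀ w : List (Fin 2 × Bool), supportSize (FreeGroup.mk w) ≤ (w.length + 2) ^ 3) ∧
    ∃ c : ℝ, 0 < c ∧
      Filter.Tendsto
        (fun n : ℕ => prob n {w | c * (n : ℝ) ^ 3 ≤ supportSize (FreeGroup.mk w)})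
        Filter.atTop (nhds 1) ∧
      ∃ ρ : ℝ, 0 < ρ ∧ ρ < 1 ∧ ∀ n : ℕ,
        1 - 3 * ρ ^ n ≤ prob n {w | c * (n : ℝ) ^ 3 ≤ supportSize (FreeGroup.mk w)} := by
  refine ⟨maxSupport_theta, supportSize_le, ?_⟩
  obtain ⟨B, hB⟩ : ∃ B : ℕ, B = 708588 := ⟨_, rfl⟩
  have hB1 : (1 : ℝ) ≤ B := by
    rw [hB]
    norm_num
  have hlow := prob_lower B hB
  have hB0 : (0 : ℝ) < B := by linarith
  have hρ0 : (0 : ℝ) < 1 - 1 / (4 * (B : ℝ)) := by
    rw [sub_pos, div_lt_one (by positivity)]
    linarith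
  have hρ1 : 1 - 1 / (4 * (B : ℝ)) < 1 := by
    have : (0 : ℝ) < 1 / (4 * (B : ℝ)) := by positivity
    linarith
  refine ⟨1 / (3 * (B : ℝ) ^ 3), by positivity, ?_, 1 - 1 / (4 * (B : ℝ)), hρ0, hρ1, hlow⟩
  have h1 : Filter.Tendsto (fun n : ℕ => 1 - 3 * (1 - 1 / (4 * (B : ℝ))) ^ n) Filter.atTop
      (nhds 1) := by
    have := (tendsto_pow_atTop_nhds_zero_of_lt_one hρ0.le hρ1).const_mul 3
    have := this.const_sub 1
    simpa using this
  exact tendsto_of_tendsto_of_tendsto_of_le_of_le h1 tendsto_const_nhds hlow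
    (fun n => prob_le_one n _)

end Pool.Agent.Results.MP_81f2fa_al.CubicSupport
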